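import Pool.Agent.EDX.Stmts2

/-!
# EDX, row IRF (helper16)
-/

set_option autoImplicit false

namespace Pool.Agent.EDX.H16

open Polynomial Finset Pool.Agent.EDG Pool.Agent.EDX

theorem irf_aux (θ : FF) (Φ : ℤ[X][X]) (h0 : Φ ≠ 0) :
    vt θ Φ = 0 → ∃ ψ : ℤ[X][X], Irreducible ψ ∧ ψ ∣ Φ ∧ vt θ ψ = 0 := by
  refine WfDvdMonoid.induction_on_irreducible Φ ?_ ?_ ?_ h0
  · intro h
    exact absurd rfl h
  · intro u hu _ h
    exfalso
    have h1 : IsUnit (vt θ u) := hu.map (vt θ)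
    rw [h] at h1
    exact not_isUnit_zero h1
  · intro a i ha hi ih _ h
    rw [map_mul] at h
    rcases mul_eq_zero.1 h with h1 | h1
    · exact ⟨i, hi, dvd_mul_right _ _, h1⟩
    · obtain ⟨ψ, h2, h3, h4⟩ := ih ha h1
      exact ⟨ψ, h2, h3.mul_left _, h4⟩

theorem irf : IrfStmt := by
  intro Φ hΦ θ h
  have h0 : Φ ≠ 0 := by
    rintro rfl
    exact hΦ (map_zero _)
  obtain ⟨ψ, h1, h2, h3⟩ := irf_aux θ Φ h0 h
  refine ⟨ψ, h1, ?_, h2, h3⟩
  rw [Nat.pos_iff_ne_zero]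
  intro hd
  obtain ⟨p, hp⟩ : ∃ p, ψ = C p := ⟨_, eq_C_of_natDegree_eq_zero hd⟩
  rw [hp, vt_C] at h3
  have h4 : p.map (Int.castRingHom (ZMod 2)) = 0 := by
    have h5 : (p.map (Int.castRingHom (ZMod 2))).map (algebraMap (ZMod 2) FF) = 0 := by
      rw [Polynomial.map_map]
      have h6 : (algebraMap (ZMod 2) FF).comp (Int.castRingHom (ZMod 2)) = Int.castRingHom FF :=
        RingHom.ext_int _ _
      rw [h6, h3]
    exact (Polynomial.map_eq_zero_iff (algebraMap (ZMod 2) FF).injective).1 h5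
  obtain ⟨q, hq⟩ := h2
  apply hΦ
  rw [hq, hp, map_mul]
  have h7 : red2 (C p) = 0 := by
    unfold red2
    simp [h4]
  rw [h7, zero_mul]

end Pool.Agent.EDX.H16
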